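import Mathlib
import Pool.Agent.W114.VT.General
import Pool.Agent.W688.VT.VF
import Pool.Agent.W688.VT.VC

set_option autoImplicit false

namespace Pool.Agent.Results.MP_79499b_co.EveryOrder

/-- Some finite group `G` (not assumed abelian) of order `(n ^ m - 1) / (n - 1)` contains a
difference set `D` with the Singer parameters:
`k = (n ^ (m - 1) - 1) / (n - 1)`, `lambda = (n ^ (m - 2) - 1) / (n - 1)`. -/
def HasSingerDifferenceSet (n m : ℕ) : Prop :=
  ∃ (G : Type) (_ : Group G) (_ : Fintype G) (_ : DecidableEq G) (D : Finset G),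
    Fintype.card G * (n - 1) = n ^ m - 1 ∧ D.card * (n - 1) = n ^ (m - 1) - 1 ∧
    ∀ g : G, g ≠ 1 →
      ((D ×ˢ D).filter (fun p : G × G => p.1 * p.2⁻¹ = g)).card * (n - 1) = n ^ (m - 2) - 1

/-- For every `n ≥ 2` which is neither a prime power nor a perfect square there is an odd `d ≥ 3` such
that, for every odd `m ≥ 3` divisible by `d`, no finite group contains a difference set with the Singer
parameters of `(n, m)`. -/
theorem result (n : ℕ) (hn : 2 ≤ n) (h1 : ¬ IsPrimePow n) (h2 : ¬ IsSquare n) :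
    ∃ d : ℕ, Odd d ∧ 3 ≤ d ∧ ∀ m : ℕ, Odd m → 3 ≤ m → d ∣ m → ¬ HasSingerDifferenceSet n m :=
  Pool.Agent.W114.VT.general Pool.Agent.W688.VT.vf Pool.Agent.W688.VT.vc hn h1 h2

end Pool.Agent.Results.MP_79499b_co.EveryOrder
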