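import Mathlib
import Pool.Agent.W114.PQ.Full

set_option autoImplicit false

namespace Pool.Agent.Results.MP_79499b_co.PlanarAlmostAll

open Filter Topology

/-- Some finite group (not assumed abelian) of order `n ^ 2 + n + 1` contains a planar difference set
of order `n`: a set `D` of `n + 1` elements such that every element `g ≠ 1` has exactly one
representation `g = a * b⁻¹` with `a, b ∈ D`. (These are the Singer parameters for `m = 3`.) -/
def HasPlanarDifferenceSet (n : ℕ) : Prop :=
  ∃ (G : Type) (_ : Group G) (_ : Fintype G) (_ : DecidableEq G) (D : Finset G),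
    Fintype.card G = n ^ 2 + n + 1 ∧ D.card = n + 1 ∧
    ∀ g : G, g ≠ 1 → ((D ×ˢ D).filter (fun p : G × G => p.1 * p.2⁻¹ = g)).card = 1

/-- The number of integers `2 ≤ n ≤ X` with `n ≡ 1, 2 (mod 4)` which are not prime powers and such
that some finite group contains a planar difference set of order `n` is `o(X / log X)`. -/
theorem result :
    Tendsto (fun X : ℕ =>
      ({n : ℕ | 2 ≤ n ∧ n ≤ X ∧ (n % 4 = 1 ∨ n % 4 = 2) ∧ ¬ IsPrimePow n ∧
        HasPlanarDifferenceSet n}.ncard : ℝ) * Real.log X / X)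
      atTop (𝓝 0) := by
  refine Pool.Agent.W114.PQ.squeeze (fun X => ?_) (fun X => ?_)
    (Pool.Agent.W114.PQ.planar_app Pool.Agent.W114.PQ.main Pool.Agent.W114.PQ.dp)
  · rintro n ⟨hn2, hnX, h4, hnp, G, i1, i2, i3, D, h1, h2, h3⟩
    refine ⟨hn2, hnX, hnp, h4, G, i1, i2, i3, D, ?_, ?_, ?_⟩
    · rw [h1]
      obtain ⟨k, rfl⟩ : ∃ k, n = k + 1 := ⟨n - 1, by omega⟩
      simp only [Nat.add_sub_cancel]
      symm
      rw [Nat.sub_eq_iff_eq_add (Nat.one_le_pow _ _ (by omega))]
      ring
    · rw [h2]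
      obtain ⟨k, rfl⟩ : ∃ k, n = k + 1 := ⟨n - 1, by omega⟩
      simp only [Nat.add_sub_cancel]
      symm
      rw [Nat.sub_eq_iff_eq_add (Nat.one_le_pow _ _ (by omega))]
      ring
    · intro g hg
      rw [h3 g hg]
      norm_num
  · exact (Set.finite_Icc 0 X).subset (fun n hn => ⟨Nat.zero_le _, hn.2.1⟩)

end Pool.Agent.Results.MP_79499b_co.PlanarAlmostAll
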