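import Mathlib
import Pool.Agent.W114.VT.Rec

set_option autoImplicit false

namespace Pool.Agent.Results.MP_79499b_co.SumOfTwoSquares

/-- Some finite group `G` (not assumed abelian) of order `(n ^ m - 1) / (n - 1)` contains a
difference set `D` with the Singer parameters:
`k = (n ^ (m - 1) - 1) / (n - 1)`, `lambda = (n ^ (m - 2) - 1) / (n - 1)`. -/
def HasSingerDifferenceSet (n m : ℕ) : Prop :=
  ∃ (G : Type) (_ : Group G) (_ : Fintype G) (_ : DecidableEq G) (D : Finset G),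
    Fintype.card G * (n - 1) = n ^ m - 1 ∧ D.card * (n - 1) = n ^ (m - 1) - 1 ∧
    ∀ g : G, g ≠ 1 →
      ((D ×ˢ D).filter (fun p : G × G => p.1 * p.2⁻¹ = g)).card * (n - 1) = n ^ (m - 2) - 1

/-- Let `n ≡ 1, 2 (mod 4)`, `n ≥ 2`, and let `m ≥ 3` be odd; if `n ≡ 1 (mod 4)`, let `m` have a prime
factor `l ≡ 3 (mod 4)`. If some group contains a difference set with the Singer parameters of `(n, m)`,
then `n` is a sum of two squares. -/
theorem result (n m : ℕ) (hn : 2 ≤ n) (hm : Odd m) (hm3 : 3 ≤ m)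
    (h4 : n % 4 = 2 ∨ (n % 4 = 1 ∧ ∃ l : ℕ, l.Prime ∧ l % 4 = 3 ∧ l ∣ m))
    (h : HasSingerDifferenceSet n m) : ∃ x y : ℕ, n = x ^ 2 + y ^ 2 := by
  rw [Nat.eq_sq_add_sq_iff]
  intro p hp hp4
  have hp' := Nat.prime_of_mem_primeFactors hp
  rw [← Nat.factorization_def n hp']
  by_contra ha
  rw [Nat.not_even_iff_odd] at ha
  rcases h4 with h4 | ⟨h4, l, _, hl4, hlm⟩
  · exact Pool.Agent.W114.VT.bruckRyser (l := m) hm hm3 hn hp' hp4 ha (Or.inl ⟨h4, rfl⟩) h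
  · exact Pool.Agent.W114.VT.bruckRyser hm hm3 hn hp' hp4 ha (Or.inr ⟨h4, hl4, hlm⟩) h

end Pool.Agent.Results.MP_79499b_co.SumOfTwoSquares
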